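import Pool.Agent.Helper68.Fam.Goals

/-!
# Project FAM, packet POLE

Two poles, an equator and independent further vertices form a planar graph.
-/

namespace NApexGraphs.Fam.Helper91

open SimpleGraph NApexGraphs NApexGraphs.Dom NApexGraphs.Fam

theorem gPOLE : Goals.RED → Goals.CYC → Goals.POLE := by
  intro hR hC V _ H u v E S hP
  obtain ⟨Z, hZ⟩ : ∃ Z : Set V, Z = E ∪ S ∪ {u, v} := ⟨_, rfl⟩
  obtain ⟨S1, hS1⟩ : ∃ S1 : Set V, S1 = {y | y ∈ S ∧ Low H Z y} := ⟨_, rfl⟩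
  obtain ⟨S2, hS2⟩ : ∃ S2 : Set V, S2 = {y | y ∈ S ∧ ¬ Low H Z y} := ⟨_, rfl⟩
  have s1 : ∀ y ∈ S1, y ∈ S ∧ Low H Z y := by
    intro y hy; rw [hS1] at hy; exact hy
  have s1' : ∀ y ∈ S, Low H Z y → y ∈ S1 := by
    intro y hy h; rw [hS1]; exact ⟨hy, h⟩
  have s2 : ∀ y ∈ S2, y ∈ S ∧ ¬ Low H Z y := by
    intro y hy; rw [hS2] at hy; exact hy
  have s2' : ∀ y ∈ S, ¬ Low H Z y → y ∈ S2 := by
    intro y hy h; rw [hS2]; exact ⟨hy, h⟩
  have hdisS : ∀ y ∈ S1, y ∉ S2 := fun y h1 h2 => (s2 y h2).2 (s1 y h1).2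
  -- at most one pole neighbour
  have hpole : ∀ y ∈ S, ∀ x x' : V, (x = u ∨ x = v) → (x' = u ∨ x' = v) → H.Adj y x →
      H.Adj y x' → x = x' := by
    intro y hy x x' hx hx' h h'
    by_cases huv : u = v
    · rcases hx with rfl | rfl <;> rcases hx' with rfl | rfl <;> first | rfl | exact huv |
        exact huv.symm
    · rcases hx with rfl | rfl <;> rcases hx' with rfl | rfl
      · rfl
      · exact absurd ⟨h, h'⟩ (hP.pole huv y hy)
      · exact absurd ⟨h', h⟩ (hP.pole huv y hy)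
      · rfl
  -- neighbours of an element of `S` in `Z`
  have hnb : ∀ y ∈ S, ∀ x ∈ Z, H.Adj y x → x ∈ E ∨ (x = u ∨ x = v) := by
    intro y hy x hx h
    rw [hZ] at hx
    rcases hx with (hx | hx) | hx
    · exact Or.inl hx
    · exact absurd h (hP.ind y hy x hx)
    · exact Or.inr hx
  -- two neighbours in the equator
  have htwo : ∀ y ∈ S2, ∃ p ∈ E, ∃ q ∈ E, p ≠ q ∧ H.Adj y p ∧ H.Adj y q := by
    intro y hy
    obtain ⟨hyS, hlow⟩ := s2 y hy
    unfold Low at hlow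
    push Not at hlow
    obtain ⟨a, ha, b, hb, c, hc, hya, hyb, hyc, hab, hac, hbc⟩ := hlow
    rcases hnb y hyS a ha hya with ha' | ha'
    · rcases hnb y hyS b hb hyb with hb' | hb'
      · exact ⟨a, ha', b, hb', hab, hya, hyb⟩
      · rcases hnb y hyS c hc hyc with hc' | hc'
        · exact ⟨a, ha', c, hc', hac, hya, hyc⟩
        · exact absurd (hpole y hyS b c hb' hc' hyb hyc) hbc
    · rcases hnb y hyS b hb hyb with hb' | hb'
      · rcases hnb y hyS c hc hyc with hc' | hc'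
        · exact ⟨b, hb', c, hc', hbc, hyb, hyc⟩
        · exact absurd (hpole y hyS a c ha' hc' hya hyc) hac
      · exact absurd (hpole y hyS a b ha' hb' hya hyb) hab
  have hother : ∀ y ∈ S2, ∀ p ∈ E, ∃ q ∈ E, q ≠ p ∧ H.Adj y q := by
    intro y hy p _
    obtain ⟨a, ha, b, hb, hab, hya, hyb⟩ := htwo y hy
    by_cases h : a = p
    · exact ⟨b, hb, fun h' => hab (h.trans h'.symm), hyb⟩
    · exact ⟨a, ha, h, hya⟩
  -- the edges of the reduced graph at `S2`
  have hvg2 : ∀ y ∈ S2, ∀ x, (VG H S1).Adj y x → H.Adj y x := by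
    rintro y hy x ⟨_, h | ⟨w, hw, h1, _⟩⟩
    · exact h
    · exact absurd h1 (hP.ind w (s1 w hw).1 y (s2 y hy).1)
  have hvgH : ∀ x y, H.Adj x y → (VG H S1).Adj x y := fun x y h => ⟨h.ne, Or.inl h⟩
  have hvgS : ∀ x y, (VG H S1).Adj x y → (VG H S).Adj x y := by
    rintro x y ⟨hne, h | ⟨w, hw, h1, h2⟩⟩
    · exact ⟨hne, Or.inl h⟩
    · exact ⟨hne, Or.inr ⟨w, (s1 w hw).1, h1, h2⟩⟩
  -- reduction
  have hsub1 : S1 ⊆ Z := by
    intro y hy
    rw [hZ]
    exact Or.inl (Or.inr (s1 y hy).1)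
  have main : Pl (VG H S1) ((E ∪ S2) ∪ {u, v}) := by
    refine hC V (VG H S1) (E ∪ S2) u v ?_ ?_ ?_ ?_ ?_
    · rintro ⟨hne, h | ⟨y, hy, h1, h2⟩⟩
      · exact hP.uv h
      · exact hP.pole hne y (s1 y hy).1 ⟨h1, h2⟩
    · rintro (h | h)
      · exact hP.uE h
      · exact hP.uS (s2 u h).1
    · rintro (h | h)
      · exact hP.vE h
      · exact hP.vS (s2 v h).1
    · -- connectivity
      refine ⟨hP.conn.1.mono Set.subset_union_left, ?_⟩
      intro A hA hne hcl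
      have hEA : E ⊆ A := by
        refine hP.conn.subset_of_closed ?_ ?_
        · obtain ⟨z, hz⟩ := hne
          rcases hA hz with h | h
          · exact ⟨z, h, hz⟩
          · obtain ⟨p, hp, _, _, _, hzp, _⟩ := htwo z h
            exact ⟨p, hp, hcl z hz p (Or.inl hp) (hvgH z p hzp)⟩
        · rintro x _ hxA y hy ⟨hxy, h | ⟨w, hw, h1, h2⟩⟩
          · exact hcl x hxA y (Or.inl hy) ⟨hxy, Or.inl h⟩
          · by_cases hlow : Low H Z w
            · exact hcl x hxA y (Or.inl hy) ⟨hxy, Or.inr ⟨w, s1' w hw hlow, h1, h2⟩⟩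
            · have hwA : w ∈ A := hcl x hxA w (Or.inr (s2' w hw hlow)) (hvgH x w h1.symm)
              exact hcl w hwA y (Or.inl hy) (hvgH w y h2)
      rintro y (hy | hy)
      · exact hEA hy
      · obtain ⟨p, hp, _, _, _, hyp, _⟩ := htwo y hy
        exact hcl p (hEA hp) y (Or.inr hy) (hvgH p y hyp.symm)
    · -- degrees
      rintro p (hp | hp)
      · -- an equator vertex
        have ex : ∀ c ∈ E ∪ S2, (VG H S1).Adj p c → ∃ q ∈ E, (VG H S).Adj p q ∧
            ((q = c ∧ (VG H S1).Adj p c) ∨ (c ∈ S2 ∧ H.Adj c p ∧ H.Adj c q)) := by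
          rintro c (hc | hc) h
          · exact ⟨c, hc, hvgS p c h, Or.inl ⟨rfl, h⟩⟩
          · have hcp : H.Adj c p := hvg2 c hc p h.symm
            obtain ⟨q, hq, hqp, hcq⟩ := hother c hc p hp
            exact ⟨q, hq, ⟨hqp.symm, Or.inr ⟨c, (s2 c hc).1, hcp, hcq⟩⟩, Or.inr ⟨hc, hcp, hcq⟩⟩
        have inj1 : ∀ q ∈ E, ∀ c ∈ S2, (VG H S1).Adj p q → H.Adj c p → H.Adj c q → False := by
          rintro q hq c hc ⟨hpq, h | ⟨w, hw, h1, h2⟩⟩ hcp hcq
          · exact hP.non c (s2 c hc).1 p hp q hq hpq hcp hcq h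
          · have hwc : w = c := hP.uni w (s1 w hw).1 c (s2 c hc).1 p hp q hq hpq h1 h2 hcp hcq
            subst hwc
            exact hdisS w hw hc
        have inj : ∀ q ∈ E, ∀ c c' : V, (VG H S).Adj p q →
            ((q = c ∧ (VG H S1).Adj p c) ∨ (c ∈ S2 ∧ H.Adj c p ∧ H.Adj c q)) →
            ((q = c' ∧ (VG H S1).Adj p c') ∨ (c' ∈ S2 ∧ H.Adj c' p ∧ H.Adj c' q)) → c = c' := by
          rintro q hq c c' hpq (⟨h1, h2⟩ | ⟨h1, h2, h3⟩) (⟨k1, k2⟩ | ⟨k1, k2, k3⟩)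
          · exact h1.symm.trans k1
          · subst h1
            exact (inj1 q hq c' k1 h2 k2 k3).elim
          · subst k1
            exact (inj1 q hq c h1 k2 h2 h3).elim
          · exact hP.uni c (s2 c h1).1 c' (s2 c' k1).1 p hp q hq hpq.1 h2 h3 k2 k3
        intro a ha b hb c hc hpa hpb hpc
        obtain ⟨qa, ha1, ha2, ha3⟩ := ex a ha hpa
        obtain ⟨qb, hb1, hb2, hb3⟩ := ex b hb hpb
        obtain ⟨qc, hc1, hc2, hc3⟩ := ex c hc hpc
        rcases hP.deg p hp qa ha1 qb hb1 qc hc1 ha2 hb2 hc2 with h | h | h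
        · subst h
          exact Or.inl (inj qa ha1 a b ha2 ha3 hb3)
        · subst h
          exact Or.inr (Or.inl (inj qa ha1 a c ha2 ha3 hc3))
        · subst h
          exact Or.inr (Or.inr (inj qb hb1 b c hb2 hb3 hc3))
      · -- an element of `S2`
        have hE : ∀ c ∈ E ∪ S2, (VG H S1).Adj p c → c ∈ E ∧ H.Adj p c := by
          rintro c (hc | hc) h
          · exact ⟨hc, hvg2 p hp c h⟩
          · exact absurd (hvg2 p hp c h) (hP.ind p (s2 p hp).1 c (s2 c hc).1)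
        intro a ha b hb c hc hpa hpb hpc
        obtain ⟨ha1, ha2⟩ := hE a ha hpa
        obtain ⟨hb1, hb2⟩ := hE b hb hpb
        obtain ⟨hc1, hc2⟩ := hE c hc hpc
        exact hP.two p (s2 p hp).1 a ha1 b hb1 c hc1 ha2 hb2 hc2
  have hfin : Pl H Z := by
    refine hR V H (VG H S1) Z S1 hsub1 ?_ ?_ ?_ ?_ ?_
    · exact fun r hr r' hr' => hP.ind r (s1 r hr).1 r' (s1 r' hr').1
    · exact fun r hr => (s1 r hr).2
    · exact fun a _ b _ h => hvgH a b h
    · exact fun r hr a _ b _ hab h1 h2 => ⟨hab, Or.inr ⟨r, hr, h1, h2⟩⟩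
    · refine main.mono le_rfl ?_
      rintro z ⟨hz, hz1⟩
      rw [hZ] at hz
      rcases hz with (hz | hz) | hz
      · exact Or.inl (Or.inl hz)
      · refine Or.inl (Or.inr (s2' z hz fun hlow => hz1 (s1' z hz hlow)))
      · exact Or.inr hz
  rw [hZ] at hfin
  exact hfin

end NApexGraphs.Fam.Helper91
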